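import Pool.Agent.helper88.Vis.Defs

set_option autoImplicit false

/-!
# MP_6b3417_co, part I, module I-A: a weakly convex set with few collinear points contains a `K₅`
-/

namespace Pool.Agent.helper26.Vis

open Pool.Agent.helper47.Vis Pool.Agent.helper88.Vis

/-- points of `B` not seen from `a` -/
noncomputable def unseen (B : Finset (ℝ × ℝ)) (a : ℝ × ℝ) : Finset (ℝ × ℝ) :=
  fil B (fun b => b ≠ a ∧ ¬ Sees (B : Set (ℝ × ℝ)) a b)

lemma ori_eq_sd (a b r : ℝ × ℝ) : ori a b r = sd a (b - a) r := by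
  simp [ori, sd]

lemma ori_swap (a b c : ℝ × ℝ) : ori a c b = - ori a b c := by
  simp only [ori]
  ring

lemma supporting {B : Finset (ℝ × ℝ)} (hB : ∀ b ∈ B, b ∈ Bd B) {a b : ℝ × ℝ} (ha : a ∈ B)
    (hb : b ∈ unseen B a) : (∀ r ∈ B, 0 ≤ ori a b r) ∨ ∀ r ∈ B, ori a b r ≤ 0 := by
  obtain ⟨hbB, hba, hns⟩ := mem_fil.1 hb
  have h1 : ∃ c ∈ B, c ∈ openSegment ℝ a b := by
    by_contra hcon
    push Not at hcon
    exact hns ⟨hba.symm, fun r hr => hcon r (by exact_mod_cast hr)⟩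
  obtain ⟨c, hc, hseg⟩ := h1
  obtain ⟨_, f, hf0, hf⟩ := mem_fil.1 (hB c hc)
  obtain ⟨s, t, hs, ht, hst, hx⟩ := hseg
  have hx1 : c.1 = s * a.1 + t * b.1 := by
    have := congrArg Prod.fst hx; simpa using this.symm
  have hx2 : c.2 = s * a.2 + t * b.2 := by
    have := congrArg Prod.snd hx; simpa using this.symm
  have h2 := hf a ha
  have h3 := hf b hbB
  have hs' : s = 1 - t := by linarith
  subst hs'
  rw [hx1, hx2] at h2 h3
  -- `f a = f b`
  have h4 : f.1 * a.1 + f.2 * a.2 = f.1 * b.1 + f.2 * b.2 := by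
    have e1 : t * ((f.1 * b.1 + f.2 * b.2) - (f.1 * a.1 + f.2 * a.2)) ≤ 0 := by nlinarith
    have e2 : 0 ≤ (1 - t) * ((f.1 * b.1 + f.2 * b.2) - (f.1 * a.1 + f.2 * a.2)) := by nlinarith
    have e3 : (f.1 * b.1 + f.2 * b.2) - (f.1 * a.1 + f.2 * a.2) ≤ 0 := by
      by_contra hcon
      push Not at hcon
      have := mul_pos ht hcon
      linarith
    have e4 : 0 ≤ (f.1 * b.1 + f.2 * b.2) - (f.1 * a.1 + f.2 * a.2) := by
      by_contra hcon
      push Not at hcon
      have := mul_neg_of_pos_of_neg hs hcon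
      linarith
    linarith
  -- `f` is a multiple of the form vanishing on `b - a`
  have h5 : ∃ k : ℝ, ∀ r : ℝ × ℝ, (f.1 * r.1 + f.2 * r.2) - (f.1 * a.1 + f.2 * a.2) =
      k * ori a b r := by
    by_cases h6 : b.1 - a.1 = 0
    · have h7 : b.2 - a.2 ≠ 0 := by
        intro h7
        exact hba (Prod.ext (by linarith) (by linarith))
      have h8 : f.2 = 0 := by
        have : f.2 * (b.2 - a.2) = 0 := by
          have : f.1 * (b.1 - a.1) + f.2 * (b.2 - a.2) = 0 := by linarith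
          rwa [h6, mul_zero, zero_add] at this
        exact (mul_eq_zero.1 this).resolve_right h7
      refine ⟨-f.1 / (b.2 - a.2), fun r => ?_⟩
      simp only [ori]
      rw [h6, h8]
      field_simp
      ring
    · refine ⟨f.2 / (b.1 - a.1), fun r => ?_⟩
      have h9 : f.1 * (b.1 - a.1) = - (f.2 * (b.2 - a.2)) := by linarith
      simp only [ori]
      field_simp
      linear_combination (r.1 - a.1) * h9
  obtain ⟨k, hk⟩ := h5
  have h10 : ∀ r ∈ B, 0 ≤ k * ori a b r := by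
    intro r hr
    rw [← hk r]
    have := hf r hr
    rw [hx1, hx2] at this
    have h11 : f.1 * ((1 - t) * a.1 + t * b.1) + f.2 * ((1 - t) * a.2 + t * b.2) =
        f.1 * a.1 + f.2 * a.2 := by linear_combination t * (- h4)
    linarith
  rcases lt_trichotomy k 0 with hk0 | hk0 | hk0
  · right
    intro r hr
    have := h10 r hr
    by_contra hcon
    push Not at hcon
    have := mul_neg_of_neg_of_pos hk0 hcon
    linarith
  · exfalso
    subst hk0
    apply hf0
    have e1 := hk (a.1 + 1, a.2)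
    have e2 := hk (a.1, a.2 + 1)
    simp only [zero_mul] at e1 e2
    exact Prod.ext (by simpa using (show f.1 = 0 by linarith)) (by simpa using (show f.2 = 0 by linarith))
  · left
    intro r hr
    have := h10 r hr
    by_contra hcon
    push Not at hcon
    have := mul_neg_of_pos_of_neg hk0 hcon
    linarith

lemma card_half {B : Finset (ℝ × ℝ)} {ℓ : ℕ} (hl : NoLine B ℓ) (a : ℝ × ℝ)
    (U : Finset (ℝ × ℝ)) (hU : U ⊆ B) (hne : ∀ b ∈ U, b ≠ a)
    (h : ∀ b ∈ U, ∀ b' ∈ U, ori a b b' = 0) : U.card ≤ ℓ := by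
  rcases U.eq_empty_or_nonempty with rfl | ⟨b, hb⟩
  · simp
  · have h1 := hl a (b - a) (sub_ne_zero.2 (hne b hb))
    refine le_trans (Finset.card_le_card ?_) h1.le
    intro c hc
    rw [mem_fil]
    exact ⟨hU hc, by rw [← ori_eq_sd]; exact h b hb c hc⟩

lemma card_unseen {B : Finset (ℝ × ℝ)} (hB : ∀ b ∈ B, b ∈ Bd B) {ℓ : ℕ} (hl : NoLine B ℓ)
    {a : ℝ × ℝ} (ha : a ∈ B) : (unseen B a).card ≤ 2 * ℓ := by
  classical
  set U1 := (unseen B a).filter (fun b => ∀ r ∈ B, 0 ≤ ori a b r)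
  set U2 := (unseen B a).filter (fun b => ∀ r ∈ B, ori a b r ≤ 0)
  have hsub : unseen B a ⊆ U1 ∪ U2 := by
    intro b hb
    rcases supporting hB ha hb with h | h
    · exact Finset.mem_union_left _ (Finset.mem_filter.2 ⟨hb, h⟩)
    · exact Finset.mem_union_right _ (Finset.mem_filter.2 ⟨hb, h⟩)
  have hUB : unseen B a ⊆ B := fil_subset _ _
  have c1 : U1.card ≤ ℓ := by
    refine card_half hl a U1 ((Finset.filter_subset _ _).trans hUB) ?_ ?_
    · intro b hb
      exact (mem_fil.1 (Finset.mem_filter.1 hb).1).2.1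
    · intro b hb b' hb'
      have h1 := (Finset.mem_filter.1 hb).2 b' (hUB (Finset.mem_filter.1 hb').1)
      have h2 := (Finset.mem_filter.1 hb').2 b (hUB (Finset.mem_filter.1 hb).1)
      rw [ori_swap] at h2
      linarith
  have c2 : U2.card ≤ ℓ := by
    refine card_half hl a U2 ((Finset.filter_subset _ _).trans hUB) ?_ ?_
    · intro b hb
      exact (mem_fil.1 (Finset.mem_filter.1 hb).1).2.1
    · intro b hb b' hb'
      have h1 := (Finset.mem_filter.1 hb).2 b' (hUB (Finset.mem_filter.1 hb').1)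
      have h2 := (Finset.mem_filter.1 hb').2 b (hUB (Finset.mem_filter.1 hb).1)
      rw [ori_swap] at h2
      linarith
  have := Finset.card_le_card hsub
  have := Finset.card_union_le U1 U2
  omega

/-- one greedy step -/
lemma greedy {B : Finset (ℝ × ℝ)} (hB : ∀ b ∈ B, b ∈ Bd B) {ℓ : ℕ} (hl : NoLine B ℓ)
    (C : Finset (ℝ × ℝ)) (hC : C ⊆ B) (n : ℕ) (hn : 2 * ℓ + 1 + n ≤ C.card) :
    ∃ a ∈ C, ∃ D ⊆ C, n ≤ D.card ∧ ∀ b ∈ D, Sees (B : Set (ℝ × ℝ)) a b := by
  classical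
  have hne : C.Nonempty := by
    rw [← Finset.card_pos]; omega
  obtain ⟨a, ha⟩ := hne
  refine ⟨a, ha, (C.erase a) \ unseen B a, ?_, ?_, ?_⟩
  · exact Finset.sdiff_subset.trans (Finset.erase_subset _ _)
  · have h1 := Finset.le_card_sdiff (unseen B a) (C.erase a)
    have h2 := card_unseen hB hl (hC ha)
    have h3 := Finset.card_erase_of_mem ha
    omega
  · intro b hb
    rw [Finset.mem_sdiff, Finset.mem_erase] at hb
    by_contra hcon
    exact hb.2 (mem_fil.2 ⟨hC hb.1.2, hb.1.1, hcon⟩)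

theorem wconv_K5 (ℓ : ℕ) (B : Finset (ℝ × ℝ)) (hB : ∀ b ∈ B, b ∈ Bd B) (hl : NoLine B ℓ)
    (hc : 8 * ℓ + 5 ≤ B.card) : ¬ K5free (B : Set (ℝ × ℝ)) := by
  intro hK
  obtain ⟨a, ha, C1, hC1, n1, s1⟩ := greedy hB hl B subset_rfl (6 * ℓ + 4) (by omega)
  obtain ⟨b, hb, C2, hC2, n2, s2⟩ := greedy hB hl C1 hC1 (4 * ℓ + 3) (by omega)
  obtain ⟨c, hc, C3, hC3, n3, s3⟩ := greedy hB hl C2 (hC2.trans hC1) (2 * ℓ + 2) (by omega)
  obtain ⟨d, hd, C4, hC4, n4, s4⟩ := greedy hB hl C3 (hC3.trans (hC2.trans hC1)) 1 (by omega)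
  obtain ⟨e, he⟩ : C4.Nonempty := by
    rw [← Finset.card_pos]; omega
  have hd2 := hC3 hd
  have hd1 := hC2 hd2
  have he3 := hC4 he
  have he2 := hC3 he3
  have he1 := hC2 he2
  exact K5free.elim5 hK ha (hC1 hb) (hC1 (hC2 hc)) (hC1 hd1) (hC1 he1)
    (s1 b hb) (s1 c (hC2 hc)) (s1 d hd1) (s1 e he1) (s2 c hc) (s2 d hd2) (s2 e he2)
    (s3 d hd) (s3 e he3) (s4 e he)

end Pool.Agent.helper26.Vis
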